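import Pool.Agent.Helper41.VC.Main
import Pool.Agent.Helper48.DGR.St

/-! Row VOLC of DGR, the frozen statement. -/

set_option autoImplicit false

namespace Pool.Agent.Helper41.VC

open Pool.Agent.Helper84.MT

/-- **ROW VOLC** -/
theorem volP (d : ℕ) : Pool.Agent.Helper48.DGR.VolP d := by
  intro g r D hD hST S s hs x hx j lam h0 h1
  exact vol_pt hST hx j h0 h1

/-- the form of the consumer -/
theorem volP' (d : ℕ) (_ : ∀ m < d + 1, ST m) : Pool.Agent.Helper48.DGR.VolP d := volP d

end Pool.Agent.Helper41.VC
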