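import Pool.Agent.Helper41.VC.Vlc

/-! Row VOLC of DGR, the theorem. -/

set_option autoImplicit false

namespace Pool.Agent.Helper41.VC

open Finset Filter Topology Matrix MeasureTheory Pool.Agent.Helper69.RK Pool.Agent.Helper31.EC
open Pool.Agent.Helper31.EC.Sp
open Pool.Agent.Helper40.EL Pool.Agent.Helper89.LX Pool.Agent.Helper3.LF Pool.Agent.Helper84.MT
open Pool.Agent.Helper95.LF
open Pool.Agent.Helper52.SL (untF untL)
open Pool.Agent.Helper14.MC (adf_sub gx vx vol_eq vx_UB vx_nonneg gexq gexq_bd gexq_nonneg oQ osp_n adf_cap)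
open Pool.Agent.Helper42.NS (osp osp_dl)
open Pool.Agent.Helper59.EV (sum_split_le)
open Pool.Agent.Helper41.DZ (Lz)

noncomputable section

variable {S : Sp} {d D g r : ℕ}

/-! ### pointwise -/

theorem one_Jq_jj (j : Fin (d + 1)) (r' : ℝ) (A : Matrix (Mon (d + 1) D) (Mon (d + 1) D) ℝ) (p : Fin (d + 1) → ℝ) :
    (1 + Jq r' A p) j j = 1 + Jq r' A p j j := by
  rw [Matrix.add_apply, Matrix.one_apply_eq]

theorem Jq_jj_nonneg (j : Fin (d + 1)) (r' : ℝ) {A : Matrix (Mon (d + 1) D) (Mon (d + 1) D) ℝ} (hA : PdM A)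
    (p : Fin (d + 1) → ℝ) : 0 ≤ Jq r' A p j j := by
  have h1 := Jq_nonneg r' hA.nonneg p (Pool.Agent.Helper41.DZ.ez j)
  rwa [Pool.Agent.Helper41.DZ.qf_ez] at h1

theorem fj_le (j : Fin (d + 1)) (v : Fin (d + 1) → ℝ) : fj j v ⬝ᵥ fj j v ≤ v ⬝ᵥ v := by
  unfold dotProduct
  rw [Fin.sum_univ_succAbove _ j]
  have := mul_self_nonneg (v j)
  show ∑ i, v (j.succAbove i) * v (j.succAbove i) ≤ _
  linarith

/-- THE DETERMINANT: the diagonal entry and the volume of the form on the other coordinates -/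
theorem det_pt {A : Matrix (Mon (d + 1) D) (Mon (d + 1) D) ℝ} (hA : PdM A) {B : Matrix (Mon d D) (Mon d D) ℝ}
    (hB : PdM B) (j : Fin (d + 1)) (r r' : ℝ) (p : Fin (d + 1) → ℝ) (K : ℝ) (hK : 1 ≤ K)
    (h : ∀ v, qf (hf D j r B) v ≤ K * qf A v) :
    (1 + Jq r' A p j j) * GQ r B (fj j p) ≤ ((d + 1).factorial : ℝ) ^ 2 * K ^ d * GQ r' A p := by
  have hK0 : 0 < K := by linarith
  have hG := one_Jq_pd r' hA.1 hA.nonneg p
  have hBp := one_Jq_pd r hB.1 hB.nonneg (fj j p)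
  have hjj := Jq_jj_nonneg j r' hA p
  have h1 := det_low hG hBp j (by rw [one_Jq_jj]; linarith) K⁻¹ (inv_pos.mpr hK0) (fun v => by
    rw [Lz_eq, inv_mul_le_iff₀ hK0, dv_add, dv_add, one_dv, one_dv, mul_add]
    apply add_le_add
    · have h2 := fj_le j v
      have h3 := self_nonneg' v
      nlinarith
    · refine (hf_J j r r' hB.nonneg p v).trans ?_
      rw [Jq_qf, Jq_qf, Finset.mul_sum]
      exact Finset.sum_le_sum fun i _ => h _)
  rw [one_Jq_jj] at h1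
  have h2 := mul_le_mul_of_nonneg_left h1 (pow_nonneg hK0.le d)
  have e1 : K ^ d * ((1 + Jq r' A p j j) * (K⁻¹ ^ d * (1 + Jq r B (fj j p)).det)) =
      (1 + Jq r' A p j j) * GQ r B (fj j p) := by
    have : K ^ d * K⁻¹ ^ d = 1 := by rw [← mul_pow, mul_inv_cancel₀ hK0.ne', one_pow]
    calc _ = (K ^ d * K⁻¹ ^ d) * ((1 + Jq r' A p j j) * (1 + Jq r B (fj j p)).det) := by ring
      _ = _ := by rw [this, one_mul]; rfl
  rw [e1] at h2
  refine h2.trans (le_of_eq ?_)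
  show K ^ d * (((d + 1).factorial : ℝ) ^ 2 * GQ r' A p) = _
  ring

/-- the diagonal entry is at most the determinant -/
theorem diag_pt {A : Matrix (Mon (d + 1) D) (Mon (d + 1) D) ℝ} (hA : PdM A) (j : Fin (d + 1)) (r' : ℝ)
    (p : Fin (d + 1) → ℝ) : 1 + Jq r' A p j j ≤ ((d + 1).factorial : ℝ) ^ 2 * GQ r' A p := by
  have hG := one_Jq_pd r' hA.1 hA.nonneg p
  have hjj := Jq_jj_nonneg j r' hA p
  have h1 := det_low hG (PdM.one (κ := Fin d)) j (by rw [one_Jq_jj]; linarith) 1 one_pos (fun v => by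
    rw [Lz_eq, one_mul, Matrix.one_mulVec]
    exact (fj_le j v).trans (one_Jq_ge r' hA.nonneg p v))
  rw [one_Jq_jj, one_pow, Matrix.det_one, mul_one, mul_one] at h1
  exact h1

/-- the exponent of the diagonal entry -/
def xj (Q : S.VV (d + 1)) (j : Fin (d + 1)) (k : ℕ) (ω : (S.F k).Ω)
    (A : Matrix (Mon (d + 1) D) (Mon (d + 1) D) ℝ) : ℝ :=
  Real.logb 2 (1 + Jq (S.dl 1 k) A (Q.v k ω) j j) / (2 * (S.F k).n)

/-- the constant of the Schur complement -/
def cf (d : ℕ) : ℝ := Real.logb 2 (((d + 1).factorial : ℝ) ^ 2)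

theorem fac_one (d : ℕ) : (1 : ℝ) ≤ ((d + 1).factorial : ℝ) ^ 2 :=
  one_le_pow₀ (by exact_mod_cast Nat.one_le_iff_ne_zero.mpr (Nat.factorial_ne_zero _))

theorem cf_nonneg (d : ℕ) : 0 ≤ cf d := Real.logb_nonneg (by norm_num) (fac_one d)

/-- logarithms -/
theorem log_pt {A : Matrix (Mon (d + 1) D) (Mon (d + 1) D) ℝ} (hA : PdM A) {B : Matrix (Mon d D) (Mon d D) ℝ}
    (hB : PdM B) (j : Fin (d + 1)) (r r' : ℝ) (p : Fin (d + 1) → ℝ) (t : ℝ) (ht : 0 ≤ t)
    (h : ∀ v, qf (hf D j r B) v ≤ 2 ^ t * qf A v) :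
    Real.logb 2 (1 + Jq r' A p j j) + Real.logb 2 (GQ r B (fj j p)) ≤ cf d + d * t + Real.logb 2 (GQ r' A p) := by
  have h3 := det_pt hA hB j r r' p (2 ^ t) (Real.one_le_rpow (by norm_num) ht) h
  have hjj := Jq_jj_nonneg j r' hA p
  have h4 := one_le_GQ r' hA.1 hA.nonneg p
  have h5 := one_le_GQ r hB.1 hB.nonneg (fj j p)
  have hfac := fac_one d
  have h6 := Real.logb_le_logb_of_le (b := 2) (by norm_num) (mul_pos (by linarith) (by linarith)) h3
  have e1 : Real.logb 2 ((2 ^ t) ^ d) = d * t := by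
    rw [Real.logb_pow, Real.logb_rpow (by norm_num) (by norm_num)]
  rw [Real.logb_mul (by linarith) (by linarith),
    Real.logb_mul (mul_ne_zero (by linarith) (by positivity)) (by linarith),
    Real.logb_mul (by linarith) (by positivity), e1] at h6
  exact h6

theorem xj_bd (Q : S.VV (d + 1)) (j : Fin (d + 1)) (k : ℕ) (ω : (S.F k).Ω)
    {A : Matrix (Mon (d + 1) D) (Mon (d + 1) D) ℝ} (hA : PdM A) :
    0 ≤ xj Q j k ω A ∧ xj Q j k ω A ≤ cf d / (2 * (S.F k).n) + gx Q k ω A := by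
  have hn := (S.F k).pos
  have hjj := Jq_jj_nonneg j (S.dl 1 k) hA (Q.v k ω)
  have h2 := one_le_GQ (S.dl 1 k) hA.1 hA.nonneg (Q.v k ω)
  have hf := fac_one d
  constructor
  · exact div_nonneg (Real.logb_nonneg (by norm_num) (by linarith)) (by positivity)
  · have h1 := Real.logb_le_logb_of_le (b := 2) (by norm_num) (by linarith) (diag_pt hA j (S.dl 1 k) (Q.v k ω))
    rw [Real.logb_mul (by linarith) (by linarith)] at h1
    unfold xj gx
    rw [← add_div]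
    exact div_le_div_of_nonneg_right h1 (by positivity)

section main

variable {s : MSys S (d + 1) (lin g) (Fin r)} {j : Fin (d + 1)} {lam : ℝ} {h0 : 0 < lam} {h1 : lam ≤ 1}
variable {x : ∀ k, FD (S.F k) (Mon (d + 1) D)} {y : ∀ k, FD ((S.chg S.tr lam h0).F k) (Mon d D)}

/-- the average exponent of the diagonal entry -/
def Xk (s : MSys S (d + 1) (lin g) (Fin r)) (j : Fin (d + 1)) (x : ∀ k, FD (S.F k) (Mon (d + 1) D)) (k : ℕ) : ℝ :=
  ∑ ω, (x k).l.T.μ ω * xj s.Q j k ((x k).l.p.π ω) ((x k).g ω)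

theorem Xk_bd (hx : (gaq s.Q D).Adf (s.cnd 0) x) : ∀ᶠ k in UF, 0 ≤ Xk s j x k ∧
    Xk s j x k ≤ cf d / (2 * (S.F k).n) + vx s.Q x k := by
  filter_upwards [hx 1 one_pos] with k hk
  constructor
  · apply Finset.sum_nonneg
    intro ω _
    by_cases h : (x k).l.T.μ ω = 0
    · rw [h, zero_mul]
    · exact mul_nonneg ((x k).l.T.nn ω) (xj_bd s.Q j k _ (hk.2.1 ω h).1.pdM).1
  · have e1 : cf d / (2 * (S.F k).n) + vx s.Q x k =
        ∑ ω, (x k).l.T.μ ω * (cf d / (2 * (S.F k).n) + gx s.Q k ((x k).l.p.π ω) ((x k).g ω)) := by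
      have e2 : ∑ ω, (x k).l.T.μ ω = 1 := (x k).l.T.ms
      simp only [mul_add]
      rw [Finset.sum_add_distrib, ← Finset.sum_mul, e2, one_mul]
      rfl
    rw [e1]
    apply Finset.sum_le_sum
    intro ω _
    by_cases h : (x k).l.T.μ ω = 0
    · rw [h, zero_mul, zero_mul]
    · exact mul_le_mul_of_nonneg_left (xj_bd s.Q j k _ (hk.2.1 ω h).1.pdM).2 ((x k).l.T.nn ω)

theorem cf_tendsto (S : Sp) (d : ℕ) : Tendsto (fun k => cf d / (2 * (S.F k).n)) UF (𝓝 0) := by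
  have h := S.div_n_tendsto (cf d / 2)
  refine h.congr fun k => ?_
  rw [div_div]

theorem Xk_UB (hx : (gaq s.Q D).Adf (s.cnd 0) x) : UB (Xk s j x) := by
  refine UB.sandwich (UB_const 0) ((UB_of_tendsto (cf_tendsto S d)).add (vx_UB hx)) ?_ ?_
  · exact (Xk_bd hx).mono fun k hk => hk.1
  · exact (Xk_bd hx).mono fun k hk => hk.2

/-- THE INEQUALITY OF THE EXPONENTS -/
theorem ul_main (hx : (gaq s.Q D).Optf (s.cnd 0) x)
    (hy : (gaq (prj s j lam h0 h1).Q D).Adf ((prj s j lam h0 h1).cnd 0) y) :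
    ul (Xk s j x) + lam * ul (vx (prj s j lam h0 h1).Q y) ≤ ul (vx s.Q x) := by
  classical
  have hUX := Xk_UB (j := j) hx.1
  have hUx := vx_UB hx.1
  have hUy := vx_UB hy
  obtain ⟨K, hK, hT⟩ := zf_typ hy
  obtain ⟨L, hL, hb⟩ := zf_good hy hK
  have hz := zf_adf hy
  set C : ℝ := (((gaq (prj s j lam h0 h1).Q D).C + 1) + 3) * d with hC
  have hC0 : 0 ≤ C := by
    have := (gaq (prj s j lam h0 h1).Q D).C0
    positivity
  have hbd := gexq_bd (oQ (lb y) (prj s j lam h0 h1).Q) _ ((gaq (prj s j lam h0 h1).Q D).C + 1)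
    (by linarith [(gaq (prj s j lam h0 h1).Q D).C0]) (adf_cap hy)
  suffices h : ∀ e : ℝ, 0 < e → ul (Xk s j x) + lam * ul (vx (prj s j lam h0 h1).Q y) ≤ ul (vx s.Q x) + e * d by
    apply le_of_forall_pos_le_add
    intro ε hε
    have h3 := h (ε / (d + 1)) (by positivity)
    have h4 : ε / (d + 1) * d ≤ ε := by
      rw [div_mul_eq_mul_div, div_le_iff₀ (by positivity)]
      nlinarith
    linarith
  intro e he
  have hdom := Gau.Optf.dom (gaq s.Q D) hx hz e he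
  have hle : ∀ᶠ k in UF, Xk s j x k + lam * vx (prj s j lam h0 h1).Q y k ≤
      vx s.Q x k + cf d / (2 * (S.F k).n) + (e * d + C * ((((x k).jj (zf s j lam h0 y k)).l.T.pb (fun w =>
      ¬ ∀ v, qf (((x k).jj (zf s j lam h0 y k)).g' w) v ≤
        2 ^ (e * (S.F k).n) * qf (((x k).jj (zf s j lam h0 y k)).g w) v)) +
      (y k).l.T.pb (fun ω => ¬ (gaq (prj s j lam h0 h1).Q D).φ k ((y k).l.p.π ω) ((y k).g ω) ≤ K k))) := by
    filter_upwards [hbd, hx.1 1 one_pos, hy 1 one_pos, hb] with k b1 b3 b4 b5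
    have hn := (S.F k).pos
    set J := (x k).l.am (zf s j lam h0 y k).l with hJ
    have e1 : vx s.Q x k = ∑ w, J.sp.μ w * gx s.Q k ((x k).l.p.π (J.p1.π w)) ((x k).g (J.p1.π w)) :=
      (sum_push J.p1 (fun ω => gx s.Q k ((x k).l.p.π ω) ((x k).g ω))).symm
    have e2 : Xk s j x k = ∑ w, J.sp.μ w * xj s.Q j k ((x k).l.p.π (J.p1.π w)) ((x k).g (J.p1.π w)) :=
      (sum_push J.p1 (fun ω => xj s.Q j k ((x k).l.p.π ω) ((x k).g ω))).symm
    have e3 : vx (prj s j lam h0 h1).Q y k =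
        ∑ w, J.sp.μ w * gx (prj s j lam h0 h1).Q k ((y k).l.p.π (J.p2.π w)) ((y k).g (J.p2.π w)) :=
      (sum_push J.p2 (fun ω => gx (prj s j lam h0 h1).Q k ((y k).l.p.π ω) ((y k).g ω))).symm
    have h2 := sum_split_le (F := J.sp)
      (fun w => xj s.Q j k ((x k).l.p.π (J.p1.π w)) ((x k).g (J.p1.π w)) +
        lam * gx (prj s j lam h0 h1).Q k ((y k).l.p.π (J.p2.π w)) ((y k).g (J.p2.π w)) -
        gx s.Q k ((x k).l.p.π (J.p1.π w)) ((x k).g (J.p1.π w)) - cf d / (2 * (S.F k).n))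
      (fun w => (∀ v, qf (((x k).jj (zf s j lam h0 y k)).g' w) v ≤
        2 ^ (e * (S.F k).n) * qf (((x k).jj (zf s j lam h0 y k)).g w) v) ∧
        (gaq (prj s j lam h0 h1).Q D).φ k ((y k).l.p.π (J.p2.π w)) ((y k).g (J.p2.π w)) ≤ K k)
      (e * d) C (by positivity) hC0 (by
        intro w hw hE
        have s1 := J.p1.supp w hw
        have s2 : (y k).l.T.μ (J.p2.π w) ≠ 0 := J.p2.supp w hw
        have s3 : (x k).l.p.π (J.p1.π w) = (y k).l.p.π (J.p2.π w) := (x k).jj_supp (zf s j lam h0 y k) w hw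
        have c1 := (b3.2.1 _ s1).1
        have c2 := (b4.2.1 _ s2).1
        have c3 := (b5 _ s2 hE.2).1
        have hE1 := hE.1
        have c4 : ∀ v, qf (hf D j ((S.chg S.tr lam h0).dl 1 k) ((y k).g (J.p2.π w))) v ≤
            2 ^ (e * (S.F k).n) * qf ((x k).g (J.p1.π w)) v := by
          intro v
          have c5 := hE1 v
          have c6 : ((x k).jj (zf s j lam h0 y k)).g' w = zg j lam h0 y k (J.p2.π w) := c3
          rw [c6] at c5
          exact c5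
        have h6 := log_pt c1.pdM c2.pdM j ((S.chg S.tr lam h0).dl 1 k) (S.dl 1 k)
          (s.Q.v k ((x k).l.p.π (J.p1.π w))) (e * (S.F k).n) (by positivity) c4
        have e4 : lam * gx (prj s j lam h0 h1).Q k ((y k).l.p.π (J.p2.π w)) ((y k).g (J.p2.π w)) =
            Real.logb 2 (GQ ((S.chg S.tr lam h0).dl 1 k) ((y k).g (J.p2.π w))
              (fj j (s.Q.v k ((x k).l.p.π (J.p1.π w))))) / (2 * (S.F k).n) := by
          have e8 : (prj s j lam h0 h1).Q.v k ((y k).l.p.π (J.p2.π w)) = fj j (s.Q.v k ((x k).l.p.π (J.p1.π w))) :=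
            (prj_v (s := s) (j := j) (h0 := h0) (h1 := h1) k ((y k).l.p.π (J.p2.π w))).trans
              (congrArg (fun q => fj j (s.Q.v k q)) s3.symm)
          have e9 : gx (prj s j lam h0 h1).Q k ((y k).l.p.π (J.p2.π w)) ((y k).g (J.p2.π w)) =
              Real.logb 2 (GQ ((S.chg S.tr lam h0).dl 1 k) ((y k).g (J.p2.π w))
              (fj j (s.Q.v k ((x k).l.p.π (J.p1.π w))))) / (2 * (lam * (S.F k).n)) :=
            congrArg (fun q => Real.logb 2 (GQ ((S.chg S.tr lam h0).dl 1 k) ((y k).g (J.p2.π w)) q) /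
              (2 * (lam * (S.F k).n))) e8
          rw [e9]
          field_simp
        show xj s.Q j k ((x k).l.p.π (J.p1.π w)) ((x k).g (J.p1.π w)) +
          lam * gx (prj s j lam h0 h1).Q k ((y k).l.p.π (J.p2.π w)) ((y k).g (J.p2.π w)) -
          gx s.Q k ((x k).l.p.π (J.p1.π w)) ((x k).g (J.p1.π w)) - cf d / (2 * (S.F k).n) ≤ e * d
        rw [e4]
        unfold xj gx
        rw [← add_div, ← sub_div, ← sub_div, div_le_iff₀ (by positivity)]
        have h7 : 0 ≤ (d : ℝ) * (e * (S.F k).n) := by positivity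
        linarith) (by
        intro w hw
        have s1 := J.p1.supp w hw
        have s2 : (y k).l.T.μ (J.p2.π w) ≠ 0 := J.p2.supp w hw
        have c1 := (b3.2.1 _ s1).1
        have d1 := b1 _ s2
        have d2 := (xj_bd s.Q j k ((x k).l.p.π (J.p1.π w)) c1.pdM).2
        have f1 : gexq (oQ (lb y) (prj s j lam h0 h1).Q) (fun k (ω : (y k).l.T.Ω) => (y k).g ω) k (J.p2.π w) =
            gx (prj s j lam h0 h1).Q k ((y k).l.p.π (J.p2.π w)) ((y k).g (J.p2.π w)) := by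
          unfold gexq gx
          rw [osp_dl, osp_n]
          rfl
        rw [f1] at d1
        have d3 := mul_le_mul_of_nonneg_left d1 h0.le
        have d4 : lam * ((((gaq (prj s j lam h0 h1).Q D).C + 1) + 3) * d) ≤ C := by
          rw [← hC]
          nlinarith
        linarith)
    have e5 : ∑ w, J.sp.μ w * (xj s.Q j k ((x k).l.p.π (J.p1.π w)) ((x k).g (J.p1.π w)) +
        lam * gx (prj s j lam h0 h1).Q k ((y k).l.p.π (J.p2.π w)) ((y k).g (J.p2.π w)) -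
        gx s.Q k ((x k).l.p.π (J.p1.π w)) ((x k).g (J.p1.π w)) - cf d / (2 * (S.F k).n)) =
        Xk s j x k + lam * vx (prj s j lam h0 h1).Q y k - vx s.Q x k - cf d / (2 * (S.F k).n) := by
      have e6 : ∑ w, J.sp.μ w = 1 := J.sp.ms
      rw [e1, e2, e3, Finset.mul_sum]
      have e7 : cf d / (2 * (S.F k).n) = ∑ w, J.sp.μ w * (cf d / (2 * (S.F k).n)) := by
        rw [← Finset.sum_mul, e6, one_mul]
      conv_rhs => rw [e7]
      rw [← Finset.sum_add_distrib, ← Finset.sum_sub_distrib, ← Finset.sum_sub_distrib]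
      exact Finset.sum_congr rfl fun w _ => by ring
    beta_reduce at h2
    rw [e5] at h2
    have h8 : J.sp.pb (fun w => ¬ ((∀ v, qf (((x k).jj (zf s j lam h0 y k)).g' w) v ≤
        2 ^ (e * (S.F k).n) * qf (((x k).jj (zf s j lam h0 y k)).g w) v) ∧
        (gaq (prj s j lam h0 h1).Q D).φ k ((y k).l.p.π (J.p2.π w)) ((y k).g (J.p2.π w)) ≤ K k)) ≤
        (((x k).jj (zf s j lam h0 y k)).l.T.pb (fun w =>
      ¬ ∀ v, qf (((x k).jj (zf s j lam h0 y k)).g' w) v ≤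
        2 ^ (e * (S.F k).n) * qf (((x k).jj (zf s j lam h0 y k)).g w) v)) +
      (y k).l.T.pb (fun ω => ¬ (gaq (prj s j lam h0 h1).Q D).φ k ((y k).l.p.π ω) ((y k).g ω) ≤ K k) := by
      have h9 : J.sp.pb (fun w => ¬ (gaq (prj s j lam h0 h1).Q D).φ k ((y k).l.p.π (J.p2.π w))
          ((y k).g (J.p2.π w)) ≤ K k) =
          (y k).l.T.pb (fun ω => ¬ (gaq (prj s j lam h0 h1).Q D).φ k ((y k).l.p.π ω) ((y k).g ω) ≤ K k) :=
        pb_push J.p2 (fun ω => ¬ (gaq (prj s j lam h0 h1).Q D).φ k ((y k).l.p.π ω) ((y k).g ω) ≤ K k)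
      rw [← h9]
      refine le_trans (FSp.pb_mono _ (E' := fun w : J.sp.Ω => (¬ ∀ v, qf (((x k).jj (zf s j lam h0 y k)).g' w) v ≤
        2 ^ (e * (S.F k).n) * qf (((x k).jj (zf s j lam h0 y k)).g w) v) ∨
        ¬ (gaq (prj s j lam h0 h1).Q D).φ k ((y k).l.p.π (J.p2.π w)) ((y k).g (J.p2.π w)) ≤ K k) ?_) (pb_or _ _ _)
      intro w _ h10
      by_contra hc
      rw [not_or, not_not, not_not] at hc
      exact h10 hc
    have h11 := mul_le_mul_of_nonneg_left h8 hC0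
    have h12 : Xk s j x k + lam * vx (prj s j lam h0 h1).Q y k - vx s.Q x k - cf d / (2 * (S.F k).n) ≤
        e * d + C * J.sp.pb (fun w => ¬ ((∀ v, qf (((x k).jj (zf s j lam h0 y k)).g' w) v ≤
        2 ^ (e * (S.F k).n) * qf (((x k).jj (zf s j lam h0 y k)).g w) v) ∧
        (gaq (prj s j lam h0 h1).Q D).φ k ((y k).l.p.π (J.p2.π w)) ((y k).g (J.p2.π w)) ≤ K k)) := h2
    linarith
  have t1 := (ul_tendsto hUX).add ((ul_tendsto hUy).const_mul lam)
  have t2 := ((ul_tendsto hUx).add (cf_tendsto S d)).add (((hdom.add hT).const_mul C).const_add (e * d))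
  rw [add_zero, add_zero, mul_zero, add_zero] at t2
  exact le_of_tendsto_of_tendsto t1 t2 hle

end main

theorem vv_ext {S : Sp} {m : ℕ} {y z : S.VV m} (h : y.v = z.v) : y = z := by
  cases y with
  | mk v bd =>
    cases z with
    | mk v' bd' =>
      simp only at h
      subst h
      rfl

/-- the digits of the projected point -/
theorem prj_dg {s : MSys S (d + 1) (lin g) (Fin r)} {j : Fin (d + 1)} {lam : ℝ} (h0 : 0 < lam) (h1 : lam ≤ 1)
    (P : S.VV d) (hP : ∀ k ω, P.v k ω = fj j (s.Q.v k ω)) :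
    H ((prj s j lam h0 h1).Q.dg 1) = H (P.dg lam) / lam := by
  have e1 : (prj s j lam h0 h1).Q = P.chg S.tr lam h0 := by
    apply vv_ext
    funext k ω
    exact (prj_v (s := s) (j := j) (h0 := h0) (h1 := h1) k ω).trans (hP k ω).symm
  rw [e1, VV.chg_dg, mul_one, H_chgL, hZ_tr]

/-- **THE VOLUME OF THE HULL AND THE PROJECTED POINT**, strong form: the digits of the projected point -/
theorem vol_pr {D : ℕ} (hST : STm D d (lin g) (Fin r)) {S : Sp} {s : MSys S (d + 1) (lin g) (Fin r)}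
    {x : ∀ k, FD (S.F k) (Mon (d + 1) D)} (hx : (gaq s.Q D).Optf (s.cnd 0) x) (j : Fin (d + 1)) {lam : ℝ}
    (h0 : 0 < lam) (h1 : lam ≤ 1) (P : S.VV d) (hP : ∀ k ω, P.v k ω = fun a => s.Q.v k ω (j.succAbove a)) :
    vol s.Q D x ≤ (d + 1 : ℝ) - lam * d - ul (fun k => ∑ ω, (x k).l.T.μ ω *
      (Real.logb 2 (1 + Jq (S.dl 1 k) ((x k).g ω) (s.Q.v k ((x k).l.p.π ω)) j j) / (2 * (S.F k).n))) +
      H (P.dg lam) := by
  obtain ⟨y, hy⟩ := (prj s j lam h0 h1).exists_can D 0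
  have a1 := hST _ (prj s j lam h0 h1) y hy
  have a2 : H (up1 (fun k => (y k).l) ((prj s j lam h0 h1).Q.dg 1)) ≤ H (P.dg lam) / lam :=
    (H_up1_le _ _).trans (le_of_eq (prj_dg h0 h1 P hP))
  have a3 := ul_main (h0 := h0) (h1 := h1) hx hy.1.1
  rw [vol_eq] at a1 ⊢
  have a4 : (d : ℝ) - ul (vx (prj s j lam h0 h1).Q y) ≤ H (P.dg lam) / lam := a1.trans a2
  rw [le_div_iff₀ h0] at a4
  have a5 : ul (fun k => ∑ ω, (x k).l.T.μ ω *
      (Real.logb 2 (1 + Jq (S.dl 1 k) ((x k).g ω) (s.Q.v k ((x k).l.p.π ω)) j j) / (2 * (S.F k).n))) =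
      ul (Xk s j x) := rfl
  rw [a5]
  push_cast
  nlinarith

/-- the form with the point -/
theorem vol_pt {D : ℕ} (hST : STm D d (lin g) (Fin r)) {S : Sp} {s : MSys S (d + 1) (lin g) (Fin r)}
    {x : ∀ k, FD (S.F k) (Mon (d + 1) D)} (hx : (gaq s.Q D).Optf (s.cnd 0) x) (j : Fin (d + 1)) {lam : ℝ}
    (h0 : 0 < lam) (h1 : lam ≤ 1) :
    vol s.Q D x ≤ (d + 1 : ℝ) - lam * d - ul (fun k => ∑ ω, (x k).l.T.μ ω *
      (Real.logb 2 (1 + Jq (S.dl 1 k) ((x k).g ω) (s.Q.v k ((x k).l.p.π ω)) j j) / (2 * (S.F k).n))) +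
      H (s.Q.dg lam) := by
  have a1 := vol_pr hST hx j h0 h1 ((PMap.coo S j.succAbove).val s.Q) (fun k ω => PMap.coo_ev j.succAbove k ω (s.Q.v k ω))
  have a2 : H (((PMap.coo S j.succAbove).val s.Q).dg lam) ≤ H (s.Q.dg lam) :=
    H_mono ((PMap.coo S j.succAbove).val_dg_le s.Q lam)
  linarith

end

end Pool.Agent.Helper41.VC
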