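import Pool.Agent.Helper41.DZ.Lin
import Pool.Agent.Helper84.MT.Vol
import Pool.Agent.Helper3.LF.Cap

/-! VOLC, forms: the form on `R ^ (d + 1)` which is given by a form on `R ^ d` (forget the coordinate `j`) and by the nodes
of a cell of side `r`. Its gradient matrix on every cell dominates the gradient matrix of the given form on the cell of
side `r`; its size is bounded by the size of the given form on the cell of side `r`. -/

set_option autoImplicit false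

namespace Pool.Agent.Helper41.VC

open MvPolynomial Matrix Pool.Agent.Helper95.LF Pool.Agent.Helper3.LF Pool.Agent.Helper84.MT Pool.Agent.Helper89.LX
open Pool.Agent.Helper41.DZ (Lz Sc Lz_mulVec)

noncomputable section

variable {d D : ℕ}

/-! ### linear algebra -/

/-- the determinant of a form which dominates a form on the other coordinates -/
theorem det_low {q : ℕ} {G : Matrix (Fin (q + 1)) (Fin (q + 1)) ℝ} {B : Matrix (Fin q) (Fin q) ℝ} (hG : PdM G)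
    (hB : PdM B) (z : Fin (q + 1)) (hz : 0 < G z z) (c : ℝ) (hc : 0 < c)
    (h : ∀ v : Fin (q + 1) → ℝ, c * ((Lz z *ᵥ v) ⬝ᵥ (B *ᵥ (Lz z *ᵥ v))) ≤ v ⬝ᵥ (G *ᵥ v)) :
    G z z * (c ^ q * B.det) ≤ ((q + 1).factorial : ℝ) ^ 2 * G.det := by
  have hS := Pool.Agent.Helper41.DZ.Sc_pd hG z hz
  have hA : PdM (c • B) := hB.smul hc
  have h1 : (c • B).det ≤ (Sc G z).det := by
    apply det_mono hA hS.1
    intro w
    rw [dv_smul, Pool.Agent.Helper41.DZ.vm_qf hG.1 z hz]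
    have h2 := h (Pool.Agent.Helper41.DZ.vm G z w)
    rwa [Pool.Agent.Helper41.DZ.Lz_vm] at h2
  rw [Matrix.det_smul, Fintype.card_fin] at h1
  exact (mul_le_mul_of_nonneg_left h1 hz.le).trans (Pool.Agent.Helper41.DZ.Sc_det hG z hz)

/-! ### substitution -/

/-- forget the coordinate `j` -/
def fj (j : Fin (d + 1)) (p : Fin (d + 1) → ℝ) : Fin d → ℝ := fun i => p (j.succAbove i)

theorem Lz_eq (j : Fin (d + 1)) (p : Fin (d + 1) → ℝ) : Lz j *ᵥ p = fj j p := Lz_mulVec j p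

/-- the substitution -/
def sj (j : Fin (d + 1)) (t : Fin d → ℝ) : MvPolynomial (Fin d) ℝ →ₐ[ℝ] MvPolynomial (Fin (d + 1)) ℝ :=
  aeval fun i => X (j.succAbove i) + C (t i)

theorem sj_C (j : Fin (d + 1)) (t : Fin d → ℝ) (c : ℝ) : sj j t (C c) = C c := by
  unfold sj
  rw [aeval_C]
  rfl

theorem sj_X (j : Fin (d + 1)) (t : Fin d → ℝ) (i : Fin d) : sj j t (X i) = X (j.succAbove i) + C (t i) := by
  unfold sj
  rw [aeval_X]

theorem eval_sj (j : Fin (d + 1)) (t : Fin d → ℝ) (p : Fin (d + 1) → ℝ) (f : MvPolynomial (Fin d) ℝ) :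
    eval p (sj j t f) = eval (fj j p + t) f := by
  induction f using MvPolynomial.induction_on with
  | C c => rw [sj_C, eval_C, eval_C]
  | add f g hf hg => rw [map_add, map_add, map_add, hf, hg]
  | mul_X f n hf =>
    rw [map_mul, map_mul, map_mul, hf, eval_X, sj_X, map_add, eval_X, eval_C]
    rfl

theorem sj_deg (j : Fin (d + 1)) (t : Fin d → ℝ) (f : MvPolynomial (Fin d) ℝ) (n : ℕ)
    (hf : f.totalDegree ≤ n) : (sj j t f).totalDegree ≤ n := by
  rw [f.as_sum, map_sum]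
  refine totalDegree_finsetSum_le fun s hs => ?_
  unfold sj
  rw [aeval_monomial]
  refine (totalDegree_mul _ _).trans ?_
  have e1 : (algebraMap ℝ (MvPolynomial (Fin (d + 1)) ℝ)) (coeff s f) = C (coeff s f) := rfl
  rw [e1, totalDegree_C, zero_add, Finsupp.prod_fintype _ _ (fun _ => pow_zero _)]
  refine (totalDegree_finsetProd _ _).trans ?_
  have h1 : (s.sum fun _ e => e) ≤ n := (le_totalDegree hs).trans hf
  rw [Finsupp.sum_fintype _ _ (fun _ => rfl)] at h1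
  refine le_trans (Finset.sum_le_sum fun i _ => ?_) h1
  refine (totalDegree_pow _ _).trans ?_
  have h2 : (X (j.succAbove i) + C (t i) : MvPolynomial (Fin (d + 1)) ℝ).totalDegree ≤ 1 := by
    refine (totalDegree_add _ _).trans (max_le ?_ ?_)
    · rw [totalDegree_X]
    · rw [totalDegree_C]; exact zero_le_one
  calc s i * _ ≤ s i * 1 := Nat.mul_le_mul_left _ h2
    _ = s i := mul_one _

/-- chain rule -/
theorem pderiv_sj (j : Fin (d + 1)) (t : Fin d → ℝ) (a : Fin d) (f : MvPolynomial (Fin d) ℝ) :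
    pderiv (j.succAbove a) (sj j t f) = sj j t (pderiv a f) := by
  classical
  induction f using MvPolynomial.induction_on with
  | C c => rw [sj_C, pderiv_C, pderiv_C, map_zero]
  | add f g hf hg => rw [map_add, map_add, map_add, hf, hg, map_add]
  | mul_X f n hf =>
    rw [map_mul, pderiv_mul, hf, pderiv_mul, map_add, map_mul, map_mul, sj_X]
    have e1 : pderiv (j.succAbove a) (X (j.succAbove n) + C (t n) : MvPolynomial (Fin (d + 1)) ℝ) =
        sj j t (pderiv a (X n)) := by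
      rw [map_add, pderiv_C, add_zero]
      by_cases h : n = a
      · rw [h, pderiv_X_self, pderiv_X_self, map_one]
      · rw [pderiv_X_of_ne h, map_zero, pderiv_X_of_ne]
        exact fun h' => h (Fin.succAbove_right_injective h')
    rw [e1]

theorem pderiv_sj_self (j : Fin (d + 1)) (t : Fin d → ℝ) (f : MvPolynomial (Fin d) ℝ) :
    pderiv j (sj j t f) = 0 := by
  classical
  induction f using MvPolynomial.induction_on with
  | C c => rw [sj_C, pderiv_C]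
  | add f g hf hg => rw [map_add, map_add, hf, hg, add_zero]
  | mul_X f n hf =>
    rw [map_mul, pderiv_mul, hf, zero_mul, zero_add, sj_X, map_add, pderiv_C, add_zero, pderiv_X_of_ne, mul_zero]
    exact Fin.succAbove_ne j n

/-- the matrix of the substitution -/
def Pj (D : ℕ) (j : Fin (d + 1)) (t : Fin d → ℝ) : Matrix (Mon (d + 1) D) (Mon d D) ℝ :=
  Matrix.of fun a b => coeff a.ex (sj j t b.mon)

theorem pol_Pj (j : Fin (d + 1)) (t : Fin d → ℝ) (c : Mon d D → ℝ) : pol (Pj D j t *ᵥ c) = sj j t (pol c) := by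
  obtain ⟨c', hc'⟩ := exists_pol (D := D) (sj j t (pol c)) (sj_deg j t _ D (pol_deg c))
  rw [hc']
  congr 1
  funext a
  rw [← coeff_pol c' a, ← hc']
  unfold pol
  rw [map_sum, coeff_sum]
  unfold Matrix.mulVec dotProduct
  refine Finset.sum_congr rfl fun b _ => ?_
  rw [map_mul, sj_C, coeff_C_mul, mul_comm]
  rfl

theorem dot_ext {ι : Type} [Fintype ι] [DecidableEq ι] {x y : ι → ℝ} (h : ∀ c : ι → ℝ, c ⬝ᵥ x = c ⬝ᵥ y) : x = y := by
  funext b
  have h2 := h (Pi.single b 1)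
  rwa [single_one_dotProduct, single_one_dotProduct] at h2

theorem vv_Pj (j : Fin (d + 1)) (t : Fin d → ℝ) (p : Fin (d + 1) → ℝ) :
    (Pj D j t).transpose *ᵥ vv p = (vv (fj j p + t) : Mon d D → ℝ) := by
  apply dot_ext
  intro c
  rw [Matrix.dotProduct_mulVec, Matrix.vecMul_transpose, ← eval_pol, pol_Pj, eval_sj, eval_pol]

theorem dd_Pj (j : Fin (d + 1)) (t : Fin d → ℝ) (a : Fin d) (p : Fin (d + 1) → ℝ) :
    (Pj D j t).transpose *ᵥ dd (j.succAbove a) p = (dd a (fj j p + t) : Mon d D → ℝ) := by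
  apply dot_ext
  intro c
  rw [Matrix.dotProduct_mulVec, Matrix.vecMul_transpose, ← eval_pderiv_pol, pol_Pj, pderiv_sj, eval_sj,
    eval_pderiv_pol]

theorem dd_Pj_self (j : Fin (d + 1)) (t : Fin d → ℝ) (p : Fin (d + 1) → ℝ) :
    (Pj D j t).transpose *ᵥ dd j p = (0 : Mon d D → ℝ) := by
  apply dot_ext
  intro c
  rw [Matrix.dotProduct_mulVec, Matrix.vecMul_transpose, ← eval_pderiv_pol, pol_Pj, pderiv_sj_self, map_zero,
    dotProduct_zero]

theorem Wq_mulVec (m : ℕ) (p e : Fin m → ℝ) : Wq m D p *ᵥ e = ∑ a, e a • (dd a p : Mon m D → ℝ) := by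
  funext μ
  rw [Finset.sum_apply]
  show ∑ a, dd a p μ * e a = _
  exact Finset.sum_congr rfl fun a _ => by rw [Pi.smul_apply, smul_eq_mul, mul_comm]

theorem W_Pj (j : Fin (d + 1)) (t : Fin d → ℝ) (p e : Fin (d + 1) → ℝ) :
    (Pj D j t).transpose *ᵥ (Wq (d + 1) D p *ᵥ e) = Wq d D (fj j p + t) *ᵥ fj j e := by
  rw [Wq_mulVec, Wq_mulVec, Fin.sum_univ_succAbove _ j, Matrix.mulVec_add, Matrix.mulVec_smul, dd_Pj_self, smul_zero,
    zero_add, Matrix.mulVec_sum]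
  refine Finset.sum_congr rfl fun a _ => ?_
  rw [Matrix.mulVec_smul, dd_Pj]
  rfl

/-! ### the form -/

/-- the form of one node -/
def pf (D : ℕ) (j : Fin (d + 1)) (t : Fin d → ℝ) (B : Matrix (Mon d D) (Mon d D) ℝ) :
    Matrix (Mon (d + 1) D) (Mon (d + 1) D) ℝ := Pj D j t * B * (Pj D j t).transpose

theorem pf_qf (j : Fin (d + 1)) (t : Fin d → ℝ) (B : Matrix (Mon d D) (Mon d D) ℝ) (x : Mon (d + 1) D → ℝ) :
    x ⬝ᵥ (pf D j t B *ᵥ x) = ((Pj D j t).transpose *ᵥ x) ⬝ᵥ (B *ᵥ ((Pj D j t).transpose *ᵥ x)) := by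
  unfold pf
  rw [← Matrix.mulVec_mulVec, ← Matrix.mulVec_mulVec, Matrix.dotProduct_mulVec, ← Matrix.mulVec_transpose]

theorem pf_symm (j : Fin (d + 1)) (t : Fin d → ℝ) {B : Matrix (Mon d D) (Mon d D) ℝ} (hB : B.IsSymm) :
    (pf D j t B).IsSymm := by
  unfold Matrix.IsSymm pf
  rw [Matrix.transpose_mul, Matrix.transpose_mul, Matrix.transpose_transpose, hB.eq, Matrix.mul_assoc]

/-- the form on `R ^ (d + 1)`: all nodes of a cell of side `r` -/
def hf (D : ℕ) (j : Fin (d + 1)) (r : ℝ) (B : Matrix (Mon d D) (Mon d D) ℝ) :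
    Matrix (Mon (d + 1) D) (Mon (d + 1) D) ℝ := 1 + ∑ ν : Fin d → Fin (D + 1), pf D j (nodp D 0 r ν) B

theorem hf_qf (j : Fin (d + 1)) (r : ℝ) (B : Matrix (Mon d D) (Mon d D) ℝ) (x : Mon (d + 1) D → ℝ) :
    x ⬝ᵥ (hf D j r B *ᵥ x) = x ⬝ᵥ x + ∑ ν : Fin d → Fin (D + 1), ((Pj D j (nodp D 0 r ν)).transpose *ᵥ x) ⬝ᵥ
      (B *ᵥ ((Pj D j (nodp D 0 r ν)).transpose *ᵥ x)) := by
  unfold hf
  rw [dv_add, Matrix.one_mulVec, dv_sum]
  congr 1
  exact Finset.sum_congr rfl fun ν _ => pf_qf _ _ _ _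

theorem hf_symm (j : Fin (d + 1)) (r : ℝ) {B : Matrix (Mon d D) (Mon d D) ℝ} (hB : B.IsSymm) :
    (hf D j r B).IsSymm := by
  unfold hf
  apply Matrix.isSymm_one.add
  unfold Matrix.IsSymm
  rw [Matrix.transpose_sum]
  exact Finset.sum_congr rfl fun ν _ => pf_symm _ _ hB

theorem hf_ge (j : Fin (d + 1)) (r : ℝ) {B : Matrix (Mon d D) (Mon d D) ℝ} (hB : ∀ x, 0 ≤ x ⬝ᵥ (B *ᵥ x))
    (x : Mon (d + 1) D → ℝ) : x ⬝ᵥ x ≤ x ⬝ᵥ (hf D j r B *ᵥ x) := by
  rw [hf_qf]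
  have : 0 ≤ ∑ ν : Fin d → Fin (D + 1), ((Pj D j (nodp D 0 r ν)).transpose *ᵥ x) ⬝ᵥ
      (B *ᵥ ((Pj D j (nodp D 0 r ν)).transpose *ᵥ x)) := Finset.sum_nonneg fun ν _ => hB _
  linarith

theorem node_shift (r : ℝ) (q : Fin d → ℝ) (ν : Fin d → Fin (D + 1)) : q + nodp D 0 r ν = nodp D q r ν := by
  funext i
  show q i + (0 + r * nod D (ν i)) = q i + r * nod D (ν i)
  rw [zero_add]

/-- THE GRADIENT MATRIX of the form -/
theorem hf_J (j : Fin (d + 1)) (r r' : ℝ) {B : Matrix (Mon d D) (Mon d D) ℝ} (hB : ∀ x, 0 ≤ x ⬝ᵥ (B *ᵥ x))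
    (p e : Fin (d + 1) → ℝ) :
    fj j e ⬝ᵥ (Jq r B (fj j p) *ᵥ fj j e) ≤ e ⬝ᵥ (Jq r' (hf D j r B) p *ᵥ e) := by
  rw [Jq_qf, Jq_qf]
  have h0 : ∀ i : Fin (d + 1) → Fin (D + 1), 0 ≤ (Wq (d + 1) D (nodp D p r' i) *ᵥ e) ⬝ᵥ
      (hf D j r B *ᵥ (Wq (d + 1) D (nodp D p r' i) *ᵥ e)) := fun i => (self_nonneg' _).trans (hf_ge j r hB _)
  refine le_trans ?_ (Finset.single_le_sum (f := fun i : Fin (d + 1) → Fin (D + 1) =>
      (Wq (d + 1) D (nodp D p r' i) *ᵥ e) ⬝ᵥ (hf D j r B *ᵥ (Wq (d + 1) D (nodp D p r' i) *ᵥ e)))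
      (fun i _ => h0 i) (Finset.mem_univ (fun _ => 0)))
  have e1 : nodp D p r' (fun _ => 0) = p := by
    funext i
    unfold nodp nod
    simp
  show _ ≤ (Wq (d + 1) D (nodp D p r' (fun _ => 0)) *ᵥ e) ⬝ᵥ
      (hf D j r B *ᵥ (Wq (d + 1) D (nodp D p r' (fun _ => 0)) *ᵥ e))
  rw [e1, hf_qf]
  have h2 : ∑ ν : Fin d → Fin (D + 1), ((Pj D j (nodp D 0 r ν)).transpose *ᵥ (Wq (d + 1) D p *ᵥ e)) ⬝ᵥ
      (B *ᵥ ((Pj D j (nodp D 0 r ν)).transpose *ᵥ (Wq (d + 1) D p *ᵥ e))) =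
      ∑ ν : Fin d → Fin (D + 1), (Wq d D (nodp D (fj j p) r ν) *ᵥ fj j e) ⬝ᵥ
        (B *ᵥ (Wq d D (nodp D (fj j p) r ν) *ᵥ fj j e)) := by
    refine Finset.sum_congr rfl fun ν _ => ?_
    rw [W_Pj, node_shift]
  rw [h2]
  have := self_nonneg' (Wq (d + 1) D p *ᵥ e)
  linarith

/-- the value of a form at a point of the doubled cell -/
theorem qf_vv_le (B : Matrix (Mon d D) (Mon d D) ℝ) (hB : PdM B) (r K : ℝ) (hr : 0 < r) (hK : 1 ≤ K)
    (p y : Fin d → ℝ) (hy : ∀ i, |y i - p i| ≤ K * r) :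
    vv y ⬝ᵥ (B *ᵥ vv y) ≤ (Cu D * Cm d D * K ^ D) ^ 2 * phi r B p := by
  obtain ⟨C', hC, -⟩ := exists_factor B hB
  rw [hC, qf_rows, phi_rows, Finset.mul_sum]
  refine Finset.sum_le_sum fun k _ => ?_
  rw [← eval_pol]
  exact gro_le _ (pol_deg _) r K hr hK p y hy

/-- the constant of the size -/
def hC (d D : ℕ) : ℝ := nn (d + 1) D * (nn d D * (Cu D * Cm d D * 2 ^ D) ^ 2)

theorem hC_nonneg (d D : ℕ) : 0 ≤ hC d D := by
  have h1 := nn_one (d + 1) D
  have h2 := nn_one d D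
  unfold hC
  positivity

/-- THE SIZE of the form -/
theorem hf_phi (j : Fin (d + 1)) (r r' : ℝ) (hr : 0 < r) (hr' : 0 ≤ r') (hrr : r' ≤ r)
    {B : Matrix (Mon d D) (Mon d D) ℝ} (hB : PdM B) (p : Fin (d + 1) → ℝ) :
    phi r' (hf D j r B) p ≤ phi r' (1 : Matrix (Mon (d + 1) D) (Mon (d + 1) D) ℝ) p + hC d D * phi r B (fj j p) := by
  unfold phi
  have h1 : ∀ i : Fin (d + 1) → Fin (D + 1), vv (D := D) (nodp D p r' i) ⬝ᵥ (hf D j r B *ᵥ vv (nodp D p r' i)) ≤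
      vv (D := D) (nodp D p r' i) ⬝ᵥ ((1 : Matrix (Mon (d + 1) D) (Mon (d + 1) D) ℝ) *ᵥ vv (nodp D p r' i)) +
        nn d D * ((Cu D * Cm d D * 2 ^ D) ^ 2 * phi r B (fj j p)) := by
    intro i
    rw [hf_qf, Matrix.one_mulVec]
    apply add_le_add le_rfl
    have h2 : ∀ ν ∈ (Finset.univ : Finset (Fin d → Fin (D + 1))),
        ((Pj D j (nodp D 0 r ν)).transpose *ᵥ vv (nodp D p r' i)) ⬝ᵥ
          (B *ᵥ ((Pj D j (nodp D 0 r ν)).transpose *ᵥ vv (nodp D p r' i))) ≤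
        (Cu D * Cm d D * 2 ^ D) ^ 2 * phi r B (fj j p) := by
      intro ν _
      rw [vv_Pj]
      apply qf_vv_le B hB r 2 hr (by norm_num)
      intro a
      have e1 : (fj j (nodp D p r' i) + nodp D 0 r ν) a - fj j p a =
          r' * nod D (i (j.succAbove a)) + r * nod D (ν a) := by
        show (p (j.succAbove a) + r' * nod D (i (j.succAbove a))) + (0 + r * nod D (ν a)) - p (j.succAbove a) = _
        ring
      rw [e1]
      have n1 := nod_nonneg D (i (j.succAbove a))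
      have n2 := nod_nonneg D (ν a)
      have n3 := nod_le D _ (Nat.le_of_lt_succ (i (j.succAbove a)).2)
      have n4 := nod_le D _ (Nat.le_of_lt_succ (ν a).2)
      rw [abs_of_nonneg (add_nonneg (mul_nonneg hr' n1) (mul_nonneg hr.le n2))]
      have h3 : r' * nod D (i (j.succAbove a)) ≤ r' * 1 := mul_le_mul_of_nonneg_left n3 hr'
      have h4 : r * nod D (ν a) ≤ r * 1 := mul_le_mul_of_nonneg_left n4 hr.le
      linarith
    have h3 := Finset.sum_le_card_nsmul _ _ _ h2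
    rw [nsmul_eq_mul, card_nodes] at h3
    exact h3
  refine (Finset.sum_le_sum fun i _ => h1 i).trans (le_of_eq ?_)
  rw [Finset.sum_add_distrib, Finset.sum_const, nsmul_eq_mul, card_nodes]
  unfold hC phi
  ring

end

end Pool.Agent.Helper41.VC
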