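import Pool.Agent.Helper41.VC.Frm
import Pool.Agent.Helper81.MT.Trn
import Pool.Agent.Helper81.MT.Img
import Pool.Agent.Helper14.MC.Vopt
import Pool.Agent.Helper3.LF.Spd

/-! Row VOLC of DGR: the volume of the hull of a connected system in `R ^ (d + 1)` is bounded by the structure theorem in
`R ^ d` for the truncation to the level `lam`, projected along the coordinate `j`. -/

set_option autoImplicit false

namespace Pool.Agent.Helper41.VC

open Finset Filter Topology Matrix MeasureTheory Pool.Agent.Helper69.RK Pool.Agent.Helper31.EC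
open Pool.Agent.Helper31.EC.Sp
open Pool.Agent.Helper40.EL Pool.Agent.Helper89.LX Pool.Agent.Helper3.LF Pool.Agent.Helper84.MT
open Pool.Agent.Helper95.LF
open Pool.Agent.Helper52.SL (untF untL)
open Pool.Agent.Helper14.MC (adf_sub gx vx vol_eq vx_UB vx_nonneg gexq gexq_bd gexq_nonneg oQ osp_n adf_cap)
open Pool.Agent.Helper42.NS (osp osp_dl)
open Pool.Agent.Helper59.EV (sum_split_le)

noncomputable section

variable {S : Sp} {d D g r : ℕ}

/-! ### truncations -/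

theorem hZ_tr (x : S.L) : hZ S.tr x = H x := by
  induction x using cl_ind with | _ A
  rw [hZ_cl, H_cl]

theorem sub_unchg {lam : ℝ} (h0 : 0 < lam) {K : ℕ → ℝ} (hK : (S.chg S.tr lam h0).Sub K) : S.Sub K := by
  refine ⟨hK.1, ?_⟩
  have h1 := hK.2.const_mul lam
  rw [mul_zero] at h1
  refine h1.congr fun k => ?_
  show lam * (Real.logb 2 (K k + 2) / (lam * (S.F k).n)) = Real.logb 2 (K k + 2) / (S.F k).n
  have := (S.F k).pos
  field_simp

/-- THE PROJECTION of the truncation along the coordinate `j` -/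
def prj (s : MSys S (d + 1) (lin g) (Fin r)) (j : Fin (d + 1)) (lam : ℝ) (h0 : 0 < lam) (h1 : lam ≤ 1) :
    MSys (S.chg S.tr lam h0) d (lin g) (Fin r) :=
  (s.trn lam h0 h1).img (PMap.coo _ j.succAbove) le_rfl (fun D => le_of_eq (by rw [one_mul]))

section pr

variable {s : MSys S (d + 1) (lin g) (Fin r)} {j : Fin (d + 1)} {lam : ℝ} {h0 : 0 < lam} {h1 : lam ≤ 1}

theorem prj_v (k : ℕ) (ω : (S.F k).Ω) : (prj s j lam h0 h1).Q.v k ω = fj j (s.Q.v k ω) :=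
  PMap.coo_ev (S := S.chg S.tr lam h0) j.succAbove k ω (s.Q.v k ω)

/-- the digits of the projection -/
theorem prj_H : H ((prj s j lam h0 h1).Q.dg 1) ≤ H (s.Q.dg lam) / lam := by
  have a1 : (prj s j lam h0 h1).Q.dg 1 ≤ (s.Q.chg S.tr lam h0).dg 1 :=
    (PMap.coo (S.chg S.tr lam h0) j.succAbove).val_dg_le (s.Q.chg S.tr lam h0) 1
  refine (H_mono a1).trans (le_of_eq ?_)
  rw [VV.chg_dg, mul_one, H_chgL, hZ_tr]

end pr

/-! ### the form -/

section fm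

variable (s : MSys S (d + 1) (lin g) (Fin r)) (j : Fin (d + 1)) (lam : ℝ) (h0 : 0 < lam)
variable (y : ∀ k, FD ((S.chg S.tr lam h0).F k) (Mon d D))

/-- the form on the space of the system -/
def zg (k : ℕ) (ω : (y k).l.T.Ω) : Matrix (Mon (d + 1) D) (Mon (d + 1) D) ℝ :=
  hf D j ((S.chg S.tr lam h0).dl 1 k) ((y k).g ω)

/-- the label with the form -/
def zf : ∀ k, FD (S.F k) (Mon (d + 1) D) := fun k =>
  mkFD (untF lam h0 (y k).l) (fun ω => capd ((gaq s.Q D).cp k) (zg j lam h0 y k ω)) (by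
    intro ω ω' a a' b c
    have e1 : (y k).g ω = (y k).g ω' := ((y k).meas ω ω' a a' b c).1
    unfold zg
    rw [e1])

theorem zf_l : (fun k => (zf s j lam h0 y k).l) = untL (fun k => (y k).l) := rfl

variable {s j lam h0 y}

theorem dl_le (h1 : lam ≤ 1) (k : ℕ) : S.dl 1 k ≤ (S.chg S.tr lam h0).dl 1 k := by
  rw [chg_dl, mul_one]
  exact S.dl_anti h1 k

/-- where the form is below the cap, and its size -/
theorem zf_good {h1 : lam ≤ 1} (hy : (gaq (prj s j lam h0 h1).Q D).Adf ((prj s j lam h0 h1).cnd 0) y)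
    {K : ℕ → ℝ} (hK : S.Sub K) : ∃ L : ℕ → ℝ, S.Sub L ∧ ∀ᶠ k in UF, ∀ ω, (y k).l.T.μ ω ≠ 0 →
      (gaq (prj s j lam h0 h1).Q D).φ k ((y k).l.p.π ω) ((y k).g ω) ≤ K k →
      (zf s j lam h0 y k).g ω = zg j lam h0 y k ω ∧
      (gaq s.Q D).φ k ((zf s j lam h0 y k).l.p.π ω) ((zf s j lam h0 y k).g ω) ≤ L k := by
  obtain ⟨K0, hK0, hone⟩ := (gaq s.Q D).one
  have hL : S.Sub (fun k => K0 k + hC d D * K k) := hK0.add ((S.Sub_const (hC_nonneg d D)).mul hK)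
  refine ⟨_, hL, ?_⟩
  filter_upwards [hone, (gaq s.Q D).cap, hL.eventually_le one_pos, hy 1 one_pos] with k k2 k3 k4 k5 ω hω hφ
  have hB := (k5.2.1 ω hω).1
  have hBp : PdM ((y k).g ω) := hB.pdM
  have hsup : (S.F k).μ ((y k).l.p.π ω) ≠ 0 := (y k).l.p.supp ω hω
  have e1 : (gaq (prj s j lam h0 h1).Q D).φ k ((y k).l.p.π ω) ((y k).g ω) =
      phi ((S.chg S.tr lam h0).dl 1 k) ((y k).g ω) (fj j (s.Q.v k ((y k).l.p.π ω))) :=
    congrArg (fun q => phi ((S.chg S.tr lam h0).dl 1 k) ((y k).g ω) q)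
      (prj_v (s := s) (j := j) (h0 := h0) (h1 := h1) k ((y k).l.p.π ω))
  rw [e1] at hφ
  have h2 := hf_phi j ((S.chg S.tr lam h0).dl 1 k) (S.dl 1 k) ((S.chg S.tr lam h0).dl_pos 1 k) (S.dl_pos 1 k).le
    (dl_le h1 k) hBp (s.Q.v k ((y k).l.p.π ω))
  have h3 : phi (S.dl 1 k) (1 : Matrix (Mon (d + 1) D) (Mon (d + 1) D) ℝ) (s.Q.v k ((y k).l.p.π ω)) ≤ K0 k :=
    k2 _ hsup
  have h4 : phi (S.dl 1 k) (zg j lam h0 y k ω) (s.Q.v k ((y k).l.p.π ω)) ≤ K0 k + hC d D * K k := by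
    refine h2.trans (add_le_add h3 (mul_le_mul_of_nonneg_left hφ (hC_nonneg d D)))
  have hzs : (zg j lam h0 y k ω).IsSymm := hf_symm j _ hBp.1
  have hzg : ∀ v, v ⬝ᵥ v ≤ v ⬝ᵥ (zg j lam h0 y k ω *ᵥ v) := hf_ge j _ hBp.nonneg
  have h5 : Cpd ((gaq s.Q D).cp k) (zg j lam h0 y k ω) := by
    refine ⟨hzs, hzg, fun v => ?_⟩
    refine (k3 _ hsup _ ⟨hzs, fun v hv => (self_pos hv).trans_le (hzg v)⟩ v).trans ?_
    apply mul_le_mul_of_nonneg_right _ (dot_self_nonneg v)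
    unfold Gau.cp
    rw [add_mul, Real.rpow_add (by norm_num)]
    apply mul_le_mul_of_nonneg_left _ (by positivity)
    have g3 : (gaq s.Q D).φ k ((y k).l.p.π ω) (zg j lam h0 y k ω) ≤ K0 k + hC d D * K k := h4
    linarith
  have h6 : (zf s j lam h0 y k).g ω = zg j lam h0 y k ω := capd_eq h5
  exact ⟨h6, by rw [h6]; exact h4⟩

/-- the typical event -/
theorem zf_typ {h1 : lam ≤ 1} (hy : (gaq (prj s j lam h0 h1).Q D).Adf ((prj s j lam h0 h1).cnd 0) y) :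
    ∃ K : ℕ → ℝ, S.Sub K ∧ Tendsto (fun k => (y k).l.T.pb (fun ω =>
      ¬ (gaq (prj s j lam h0 h1).Q D).φ k ((y k).l.p.π ω) ((y k).g ω) ≤ K k)) UF (𝓝 0) := by
  obtain ⟨K, hK, hT⟩ := adf_sub hy
  exact ⟨K, sub_unchg h0 hK, hT⟩

/-- THE FORM IS ADMISSIBLE -/
theorem zf_adf {h1 : lam ≤ 1} (hy : (gaq (prj s j lam h0 h1).Q D).Adf ((prj s j lam h0 h1).cnd 0) y) :
    (gaq s.Q D).Adf (s.cnd 0) (zf s j lam h0 y) := by
  obtain ⟨K, hK, hT⟩ := zf_typ hy
  obtain ⟨L, hL, hb⟩ := zf_good hy hK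
  have hl : Lab.DMf (fun k => (zf s j lam h0 y k).l) (s.cnd 0) := by
    rw [zf_l]
    have a1 : (prj s j lam h0 h1).DMc 0 (fun k => (y k).l) := Gau.Adf.dm _ hy
    have a2 : (s.trn lam h0 h1).DMc 0 (fun k => (y k).l) := MSys.DMc.of_img a1
    exact MSys.DMc.of_trn (c' := 0) (by rw [mul_zero]) a2
  intro η hη
  have a1 := leak_evf hl hη
  filter_upwards [a1, hb, hT.eventually (gt_mem_nhds hη), hL.eventually_le hη] with k b1 b2 b3 b4
  have hp : (y k).l.T.pb (fun ω => ¬ (gaq s.Q D).φ k ((zf s j lam h0 y k).l.p.π ω) ((zf s j lam h0 y k).g ω) ≤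
      2 ^ (η * (S.F k).n)) ≤ η := by
    refine le_trans (FSp.pb_mono _ ?_) b3.le
    intro ω hω h2 h3
    apply h2
    have h4 := (b2 ω hω h3).2
    linarith
  exact ⟨b1, fun ω _ => ⟨capd_Cpd ((gaq s.Q D).one_le_cp k) _, capd_Cpd ((gaq s.Q D).one_le_cp k) _⟩, hp, hp⟩

end fm

end

end Pool.Agent.Helper41.VC
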